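import Mathlib

/-!
# MP_391eb1_al : a section-ratio criterion for the LCM property of `p`-groups

For every prime `p` put `c = (p^2 - 2p + 2)/p^2`.  A finite `p`-group `G` with
`lcm^*(G) > c` is an LCM-group.
-/

namespace Pool.Agent.Results.MP_391eb1_al.SectionRatio

universe u

open Subgroup

/-- `LCM(G)`: the elements `x` with `o(x^n y) ∣ lcm(o(x^n), o(y))` for all `n ≥ 1`, `y ∈ G`. -/
def LCMset (G : Type*) [Group G] : Set G :=
  {x | ∀ n : ℕ, 0 < n → ∀ y : G, orderOf (x ^ n * y) ∣ Nat.lcm (orderOf (x ^ n)) (orderOf y)}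

/-- `G` is an LCM-group if `LCM(G) = G`. -/
def IsLCMGroup (G : Type*) [Group G] : Prop := LCMset G = Set.univ

/-- `lcm(G) = |LCM(G)| / |G|`. -/
noncomputable def lcmRatio (G : Type*) [Group G] : ℝ :=
  (Nat.card (LCMset G) : ℝ) / (Nat.card G : ℝ)

/-- `lcm^*(G)`: the minimum (infimum) of `lcm(H/K)` over all sections `H/K`, `K ⊴ H ≤ G`. -/
noncomputable def lcmStar (G : Type*) [Group G] : ℝ :=
  sInf {r : ℝ | ∃ (H : Subgroup G) (K : Subgroup H) (_ : K.Normal), r = lcmRatio (H ⧸ K)}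

theorem LCMset_equiv {G G' : Type*} [Group G] [Group G'] (e : G ≃* G') (x : G) :
    e x ∈ LCMset G' ↔ x ∈ LCMset G := by
  constructor
  · intro h n hn y
    have := h n hn (e y)
    rw [← map_pow, ← map_mul] at this
    rwa [MulEquiv.orderOf_eq, MulEquiv.orderOf_eq, MulEquiv.orderOf_eq] at this
  · intro h n hn y
    obtain ⟨y, rfl⟩ := e.surjective y
    rw [← map_pow, ← map_mul]
    rw [MulEquiv.orderOf_eq, MulEquiv.orderOf_eq, MulEquiv.orderOf_eq]
    exact h n hn y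

theorem lcmRatio_equiv {G G' : Type*} [Group G] [Group G'] (e : G ≃* G') :
    lcmRatio G = lcmRatio G' := by
  unfold lcmRatio
  have h1 : Nat.card G = Nat.card G' := Nat.card_congr e.toEquiv
  have h2 : Nat.card (LCMset G) = Nat.card (LCMset G') := by
    refine Nat.card_congr (Equiv.subtypeEquiv e.toEquiv ?_)
    intro a
    exact (LCMset_equiv e a).symm
  rw [h1, h2]

theorem conj_pow_eq_one {G : Type*} [Group G] (a b : G) (n : ℕ) (h : (a * b) ^ n = 1) :
    (b * a) ^ n = 1 := by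
  have : (b * a) = a⁻¹ * (a * b) * (a⁻¹)⁻¹ := by group
  rw [this, conj_pow, h]; simp

/-- The subgroup `{g ∈ M : g ^ m = 1}` when this is closed under products. -/
def tor {S : Type*} [Group S] (M : Subgroup S) (m : ℕ)
    (h : ∀ x ∈ M, ∀ y ∈ M, x ^ m = 1 → y ^ m = 1 → (x * y) ^ m = 1) : Subgroup S where
  carrier := {g | g ∈ M ∧ g ^ m = 1}
  one_mem' := ⟨M.one_mem, one_pow m⟩
  mul_mem' := by
    rintro a b ⟨ha, ha'⟩ ⟨hb, hb'⟩
    exact ⟨M.mul_mem ha hb, h a ha b hb ha' hb'⟩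
  inv_mem' := by
    rintro a ⟨ha, ha'⟩
    exact ⟨M.inv_mem ha, by rw [inv_pow, ha', inv_one]⟩

theorem tor_normal {S : Type*} [Group S] (M : Subgroup S) [hM : M.Normal] (m : ℕ)
    (h : ∀ x ∈ M, ∀ y ∈ M, x ^ m = 1 → y ^ m = 1 → (x * y) ^ m = 1) : (tor M m h).Normal := by
  constructor
  rintro n ⟨hn, hn'⟩ g
  refine ⟨hM.conj_mem n hn g, ?_⟩
  rw [conj_pow, hn']; simp

/-- Key step: if `x ∈ A ⊴ S`, `y ∈ B ⊴ S` generate `S`, with `A = {g ∈ M : g^m = 1}`,
`B = {g ∈ N : g^m = 1}`, then `A = M`. -/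
theorem all_tor {S : Type*} [Group S] (M N : Subgroup S) [hM : M.Normal] [hN : N.Normal] (m : ℕ)
    (hm : ∀ x ∈ M, ∀ y ∈ M, x ^ m = 1 → y ^ m = 1 → (x * y) ^ m = 1)
    (hn : ∀ x ∈ N, ∀ y ∈ N, x ^ m = 1 → y ^ m = 1 → (x * y) ^ m = 1)
    (x y : S) (hx : x ∈ M) (hy : y ∈ N) (hxm : x ^ m = 1) (hym : y ^ m = 1)
    (hgen : closure ({x, y} : Set S) = ⊤) : ∀ g ∈ M, g ^ m = 1 := by
  intro g hg
  have hA := tor_normal M m hm
  have hB := tor_normal N m hn
  have hsup : tor M m hm ⊔ tor N m hn = ⊤ := by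
    rw [eq_top_iff, ← hgen, closure_le]
    rintro z (rfl | hz)
    · exact (le_sup_left : tor M m hm ≤ _) ⟨hx, hxm⟩
    · rw [Set.mem_singleton_iff] at hz
      subst hz
      exact (le_sup_right : tor N m hn ≤ _) ⟨hy, hym⟩
  have hg' : g ∈ tor M m hm ⊔ tor N m hn := by rw [hsup]; trivial
  rw [Subgroup.mem_sup_of_normal_left] at hg'
  obtain ⟨a, ⟨haM, ham⟩, b, ⟨hbN, hbm⟩, rfl⟩ := hg'
  have hbM : b ∈ M := by
    have := M.mul_mem (M.inv_mem haM) hg
    simpa using this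
  exact hm a haM b hbM ham hbm

theorem exists_index_p {p : ℕ} [hp : Fact p.Prime] {S : Type*} [Group S] [Finite S]
    (hS : IsPGroup p S) (x : S) (hx : zpowers x ≠ ⊤) :
    ∃ M : Subgroup S, x ∈ M ∧ M.Normal ∧ M.index = p := by
  obtain ⟨n, hn⟩ := IsPGroup.iff_card.mp hS
  obtain ⟨m, hm⟩ := IsPGroup.iff_card.mp (hS.to_subgroup (zpowers x))
  have hp1 := hp.out.one_lt
  have hlt : Nat.card (zpowers x) < Nat.card S := by
    refine lt_of_le_of_ne (Subgroup.card_le_card_group _) ?_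
    intro h
    exact hx (Subgroup.eq_top_of_card_eq _ h)
  rw [hm, hn] at hlt
  have hmn : m < n := (Nat.pow_lt_pow_iff_right hp1).mp hlt
  obtain ⟨K, hK, hle⟩ := Sylow.exists_subgroup_card_pow_prime_le (G := S) p (n := m) (m := n - 1)
    (by rw [hn]; exact pow_dvd_pow p (Nat.sub_le n 1)) (zpowers x) hm (by omega)
  have hidx : K.index = p := by
    have h1 := K.card_mul_index
    rw [hK, hn] at h1
    have h2 : p ^ n = p ^ (n - 1) * p := by
      rw [← pow_succ]; congr 1; omega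
    rw [h2] at h1
    exact Nat.eq_of_mul_eq_mul_left (pow_pos hp.out.pos _) h1
  refine ⟨K, hle (mem_zpowers x), ?_, hidx⟩
  apply Subgroup.normal_of_index_eq_minFac_card
  rw [hidx, hn, hp.out.pow_minFac (by omega)]

theorem not_mem_LCM {p : ℕ} [hp : Fact p.Prime] {S : Type*} [Group S] [Finite S] (m : ℕ)
    (M N : Subgroup S) [hN : N.Normal] (hidx : N.index = p)
    (hM : ∀ g ∈ M, g ^ m = 1) (hN' : ∀ g ∈ N, g ^ m = 1)
    (x y : S) (hy : y ∈ N) (hxN : x ∉ N) (hxy : (x * y) ^ m ≠ 1)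
    (g : S) (hgM : g ∈ M) (hgN : g ∉ N) : g ∉ LCMset S := by
  intro hg
  have hcard : Nat.card (S ⧸ N) = p := hidx
  have hg1 : (QuotientGroup.mk g : S ⧸ N) ≠ 1 := by
    rwa [Ne, QuotientGroup.eq_one_iff]
  have hmem : (QuotientGroup.mk x : S ⧸ N) ∈ Submonoid.powers (QuotientGroup.mk g : S ⧸ N) :=
    mem_powers_of_prime_card hcard hg1
  obtain ⟨n, hn⟩ := hmem
  have hn' : g ^ n ≠ 1 ∧ 0 < n := by
    have h0 : 0 < n := by
      rcases Nat.eq_zero_or_pos n with h | h
      · exfalso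
        subst h
        simp only [pow_zero] at hn
        exact hxN ((QuotientGroup.eq_one_iff x).mp hn.symm)
      · exact h
    refine ⟨?_, h0⟩
    intro h
    simp only at hn
    rw [← QuotientGroup.mk_pow, h] at hn
    exact hxN ((QuotientGroup.eq_one_iff x).mp hn.symm)
  have hd : (g ^ n)⁻¹ * x ∈ N := by
    simp only at hn
    rw [← QuotientGroup.mk_pow] at hn
    exact QuotientGroup.eq.mp hn
  have h1 := hg n hn'.2 ((g ^ n)⁻¹ * x * y)
  have h2 : (g ^ n)⁻¹ * x * y ∈ N := N.mul_mem hd hy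
  have h3 : g ^ n * ((g ^ n)⁻¹ * x * y) = x * y := by group
  rw [h3] at h1
  apply hxy
  rw [← orderOf_dvd_iff_pow_eq_one]
  refine h1.trans (Nat.lcm_dvd ?_ ?_)
  · rw [orderOf_dvd_iff_pow_eq_one]; exact hM _ (M.pow_mem hgM n)
  · rw [orderOf_dvd_iff_pow_eq_one]; exact hN' _ h2

/-- Minimal non-LCM `p`-groups (with respect to subgroups). -/
theorem core {p : ℕ} [hp : Fact p.Prime] {S : Type*} [Group S] [Finite S] (hS : IsPGroup p S)
    (m : ℕ) (x y : S) (hx : x ^ m = 1) (hy : y ^ m = 1) (hxy : (x * y) ^ m ≠ 1)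
    (hmin : ∀ T : Subgroup S, T ≠ ⊤ → ∀ a ∈ T, ∀ b ∈ T, a ^ m = 1 → b ^ m = 1 →
      (a * b) ^ m = 1) :
    lcmRatio S ≤ ((p : ℝ) ^ 2 - 2 * p + 2) / (p : ℝ) ^ 2 := by
  classical
  have hgen : closure ({x, y} : Set S) = ⊤ := by
    by_contra hne
    exact hxy (hmin _ hne x (subset_closure (by simp)) y (subset_closure (by simp)) hx hy)
  have hyx : (y * x) ^ m ≠ 1 := fun h => hxy (conj_pow_eq_one y x m h)
  have hcyc : ∀ z : S, zpowers z ≠ ⊤ := by
    intro z hz
    apply hxy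
    have hxz : x ∈ zpowers z := by rw [hz]; trivial
    have hyz : y ∈ zpowers z := by rw [hz]; trivial
    obtain ⟨i, rfl⟩ := hxz
    obtain ⟨j, rfl⟩ := hyz
    simp only at hx hy ⊢
    rw [((Commute.refl z).zpow_zpow i j).mul_pow, hx, hy, one_mul]
  obtain ⟨M, hxM, hMn, hMi⟩ := exists_index_p hS x (hcyc x)
  obtain ⟨N, hyN, hNn, hNi⟩ := exists_index_p hS y (hcyc y)
  have hMtop : M ≠ ⊤ := by
    intro h; rw [h, index_top] at hMi; exact hp.out.one_lt.ne hMi
  have hNtop : N ≠ ⊤ := by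
    intro h; rw [h, index_top] at hNi; exact hp.out.one_lt.ne hNi
  have hmM := hmin M hMtop
  have hmN := hmin N hNtop
  have hMt : ∀ g ∈ M, g ^ m = 1 := all_tor M N m hmM hmN x y hxM hyN hx hy hgen
  have hgen' : closure ({y, x} : Set S) = ⊤ := by rw [Set.pair_comm]; exact hgen
  have hNt : ∀ g ∈ N, g ^ m = 1 := all_tor N M m hmN hmM y x hyN hxM hy hx hgen'
  have hxN : x ∉ N := by
    intro h
    apply hNtop
    rw [eq_top_iff, ← hgen, closure_le]
    rintro z (rfl | hz)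
    · exact h
    · rw [Set.mem_singleton_iff] at hz; subst hz; exact hyN
  have hyM : y ∉ M := by
    intro h
    apply hMtop
    rw [eq_top_iff, ← hgen, closure_le]
    rintro z (rfl | hz)
    · exact hxM
    · rw [Set.mem_singleton_iff] at hz; subst hz; exact h
  have h1 : ∀ g ∈ M, g ∉ N → g ∉ LCMset S := fun g hg hg' =>
    not_mem_LCM (p := p) m M N hNi hMt hNt x y hyN hxN hxy g hg hg'
  have h2 : ∀ g ∈ N, g ∉ M → g ∉ LCMset S := fun g hg hg' =>
    not_mem_LCM (p := p) m N M hMi hNt hMt y x hxM hyM hyx g hg hg'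
  -- counting
  have hrel : M.relIndex N = p := by
    have hdvd : M.relIndex N ∣ M.index := relIndex_dvd_index_of_normal M N
    rw [hMi] at hdvd
    rcases (Nat.dvd_prime hp.out).mp hdvd with h | h
    · exfalso
      rw [relIndex_eq_one] at h
      exact hyM (h hyN)
    · exact h
  have hcM : Nat.card M * p = Nat.card S := by rw [← hMi]; exact M.card_mul_index
  have hcN : Nat.card N * p = Nat.card S := by rw [← hNi]; exact N.card_mul_index
  have hcD : Nat.card (M ⊓ N : Subgroup S) * p = Nat.card N := by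
    have h3 := relIndex_mul_relIndex ⊥ (M ⊓ N) N bot_le inf_le_right
    rw [inf_relIndex_right, hrel, relIndex_bot_left, relIndex_bot_left] at h3
    exact h3
  -- the sets
  have hfin : Fintype S := Fintype.ofFinite S
  set A : Finset S := Finset.univ.filter (fun g => g ∈ M) with hA
  set B : Finset S := Finset.univ.filter (fun g => g ∈ N) with hB
  set D : Finset S := Finset.univ.filter (fun g => g ∈ M ⊓ N) with hD
  set L : Finset S := Finset.univ.filter (fun g => g ∈ LCMset S) with hL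
  have cA : A.card = Nat.card M := by
    rw [hA, Nat.card_eq_fintype_card, Fintype.card_subtype]
  have cB : B.card = Nat.card N := by
    rw [hB, Nat.card_eq_fintype_card, Fintype.card_subtype]
  have cD : D.card = Nat.card (M ⊓ N : Subgroup S) := by
    rw [hD, Nat.card_eq_fintype_card, Fintype.card_subtype]
  have cL : L.card = Nat.card (LCMset S) := by
    rw [hL, Nat.card_eq_fintype_card, Fintype.card_subtype]
  have hdisj : Disjoint L ((A \ D) ∪ (B \ D)) := by
    rw [Finset.disjoint_left]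
    intro g hg hg'
    simp only [hL, hA, hB, hD, Finset.mem_filter, Finset.mem_univ, true_and, Finset.mem_union,
      Finset.mem_sdiff, mem_inf] at hg hg'
    rcases hg' with ⟨ha, hb⟩ | ⟨ha, hb⟩
    · exact h1 g ha (fun h => hb ⟨ha, h⟩) hg
    · exact h2 g ha (fun h => hb ⟨h, ha⟩) hg
  have hdisj2 : Disjoint (A \ D) (B \ D) := by
    rw [Finset.disjoint_left]
    intro g hg hg'
    simp only [hA, hB, hD, Finset.mem_filter, Finset.mem_univ, true_and,
      Finset.mem_sdiff, mem_inf] at hg hg'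
    exact hg.2 ⟨hg.1, hg'.1⟩
  have hDA : D ⊆ A := by
    intro g hg
    simp only [hA, hD, Finset.mem_filter, Finset.mem_univ, true_and, mem_inf] at hg ⊢
    exact hg.1
  have hDB : D ⊆ B := by
    intro g hg
    simp only [hB, hD, Finset.mem_filter, Finset.mem_univ, true_and, mem_inf] at hg ⊢
    exact hg.2
  have hle : (L ∪ ((A \ D) ∪ (B \ D))).card ≤ Nat.card S := by
    rw [Nat.card_eq_fintype_card]
    exact Finset.card_le_univ _
  rw [Finset.card_union_of_disjoint hdisj, Finset.card_union_of_disjoint hdisj2,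
    Finset.card_sdiff_of_subset hDA, Finset.card_sdiff_of_subset hDB, cA, cB, cD, cL] at hle
  have hDAc : Nat.card (M ⊓ N : Subgroup S) ≤ Nat.card M := by
    rw [← cD, ← cA]; exact Finset.card_le_card hDA
  have hDBc : Nat.card (M ⊓ N : Subgroup S) ≤ Nat.card N := by
    rw [← cD, ← cB]; exact Finset.card_le_card hDB
  have hp0 : (0 : ℝ) < p := by exact_mod_cast hp.out.pos
  have hS0 : (0 : ℝ) < Nat.card S := by exact_mod_cast Nat.card_pos
  have e1 : (Nat.card M : ℝ) * p = Nat.card S := by exact_mod_cast hcM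
  have e2 : (Nat.card N : ℝ) * p = Nat.card S := by exact_mod_cast hcN
  have e3 : (Nat.card (M ⊓ N : Subgroup S) : ℝ) * p = Nat.card N := by exact_mod_cast hcD
  have e4 : (Nat.card (LCMset S) : ℝ) + (((Nat.card M : ℝ) - Nat.card (M ⊓ N : Subgroup S))
      + ((Nat.card N : ℝ) - Nat.card (M ⊓ N : Subgroup S))) ≤ Nat.card S := by
    have := (Nat.cast_le (α := ℝ)).mpr hle
    rw [Nat.cast_add, Nat.cast_add, Nat.cast_sub hDAc, Nat.cast_sub hDBc] at this
    exact this
  unfold lcmRatio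
  rw [div_le_div_iff₀ hS0 (by positivity)]
  set l : ℝ := (Nat.card (LCMset S) : ℝ)
  set s : ℝ := (Nat.card S : ℝ)
  set a : ℝ := (Nat.card M : ℝ)
  set b : ℝ := (Nat.card N : ℝ)
  set d : ℝ := (Nat.card (M ⊓ N : Subgroup S) : ℝ)
  have e5 : l ≤ s - a - b + 2 * d := by linarith
  have e6 : l * (p : ℝ) ^ 2 ≤ (s - a - b + 2 * d) * (p : ℝ) ^ 2 :=
    mul_le_mul_of_nonneg_right e5 (by positivity)
  have e7 : (s - a - b + 2 * d) * (p : ℝ) ^ 2 = ((p : ℝ) ^ 2 - 2 * p + 2) * s := by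
    have e8 : d * (p : ℝ) ^ 2 = s := by rw [pow_two, ← mul_assoc, e3, e2]
    have e9 : a * (p : ℝ) ^ 2 = s * p := by rw [pow_two, ← mul_assoc, e1]
    have e10 : b * (p : ℝ) ^ 2 = s * p := by rw [pow_two, ← mul_assoc, e2]
    linear_combination 2 * e8 - e9 - e10
  linarith

/-- For `p`-groups: non-LCM means that for some `k` the elements with `x^(p^k) = 1` are not
closed under products. -/
theorem exists_of_not_LCM {p : ℕ} [hp : Fact p.Prime] {G : Type*} [Group G] [Finite G]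
    (hG : IsPGroup p G) (h : ¬ IsLCMGroup G) :
    ∃ (k : ℕ) (x y : G), x ^ (p ^ k) = 1 ∧ y ^ (p ^ k) = 1 ∧ (x * y) ^ (p ^ k) ≠ 1 := by
  unfold IsLCMGroup at h
  rw [Set.eq_univ_iff_forall] at h
  push Not at h
  obtain ⟨x, hx⟩ := h
  unfold LCMset at hx
  simp only [Set.mem_ofPred_eq] at hx
  push Not at hx
  obtain ⟨n, hn, y, hy⟩ := hx
  obtain ⟨a, ha⟩ := (IsPGroup.iff_orderOf.mp hG) (x ^ n)
  obtain ⟨b, hb⟩ := (IsPGroup.iff_orderOf.mp hG) y
  refine ⟨max a b, x ^ n, y, ?_, ?_, ?_⟩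
  · rw [← orderOf_dvd_iff_pow_eq_one, ha]
    exact pow_dvd_pow p (le_max_left a b)
  · rw [← orderOf_dvd_iff_pow_eq_one, hb]
    exact pow_dvd_pow p (le_max_right a b)
  · intro hc
    apply hy
    rw [ha, hb]
    refine (orderOf_dvd_iff_pow_eq_one.mpr hc).trans ?_
    rcases le_total a b with hab | hab
    · rw [max_eq_right hab]; exact Nat.dvd_lcm_right _ _
    · rw [max_eq_left hab]; exact Nat.dvd_lcm_left _ _

/-- A non-LCM `p`-group has a subgroup of small ratio. -/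
theorem exists_subgroup {p : ℕ} [hp : Fact p.Prime] {G : Type*} [Group G] [Finite G]
    (hG : IsPGroup p G) (h : ¬ IsLCMGroup G) :
    ∃ H : Subgroup G, lcmRatio H ≤ ((p : ℝ) ^ 2 - 2 * p + 2) / (p : ℝ) ^ 2 := by
  obtain ⟨k, x, y, hx, hy, hxy⟩ := exists_of_not_LCM hG h
  -- a minimal subgroup with a bad pair for this exponent
  let P : Subgroup G → Prop := fun H => ∃ a ∈ H, ∃ b ∈ H, a ^ (p ^ k) = 1 ∧ b ^ (p ^ k) = 1 ∧
    (a * b) ^ (p ^ k) ≠ 1
  have hP : ∃ H, P H := ⟨⊤, x, trivial, y, trivial, hx, hy, hxy⟩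
  obtain ⟨H, hH, hmin⟩ := WellFounded.has_min (wellFounded_lt (α := Subgroup G)) {H | P H} hP
  obtain ⟨a, haH, b, hbH, ha, hb, hab⟩ := hH
  refine ⟨H, ?_⟩
  refine core (hG.to_subgroup H) (p ^ k) ⟨a, haH⟩ ⟨b, hbH⟩ ?_ ?_ ?_ ?_
  · ext; simpa using ha
  · ext; simpa using hb
  · intro hc
    apply hab
    have := congrArg Subtype.val hc
    simpa using this
  · intro T hT u hu v hv hu' hv'
    by_contra hc
    have hlt : T.map H.subtype < H := by
      refine lt_of_le_of_ne (by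
        rintro _ ⟨t, _, rfl⟩
        exact t.2) ?_
      intro he
      apply hT
      rw [eq_top_iff]
      intro t _
      have : (t : G) ∈ T.map H.subtype := by rw [he]; exact t.2
      obtain ⟨t', ht', he'⟩ := this
      have : t' = t := Subtype.ext he'
      rwa [this] at ht'
    refine hmin (T.map H.subtype) ?_ hlt
    refine ⟨u, ⟨u, hu, rfl⟩, v, ⟨v, hv, rfl⟩, ?_, ?_, ?_⟩
    · have := congrArg Subtype.val hu'
      simpa using this
    · have := congrArg Subtype.val hv'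
      simpa using this
    · intro hc'
      apply hc
      ext
      simpa using hc'

theorem bddBelow (G : Type*) [Group G] :
    BddBelow {r : ℝ | ∃ (H : Subgroup G) (K : Subgroup H) (_ : K.Normal),
      r = lcmRatio (H ⧸ K)} := by
  refine ⟨0, ?_⟩
  rintro r ⟨H, K, hK, rfl⟩
  unfold lcmRatio
  positivity

theorem lcmStar_le_subgroup {G : Type*} [Group G] (H : Subgroup G) :
    lcmStar G ≤ lcmRatio H := by
  refine csInf_le (bddBelow G) ⟨H, ⊥, inferInstance, ?_⟩
  exact lcmRatio_equiv (QuotientGroup.quotientBot (G := H)).symm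

/-- The infimum in the definition of `lcm^*(G)` is attained when `G` is finite. -/
theorem lcmStar_isLeast (G : Type*) [Group G] [Finite G] :
    IsLeast {r : ℝ | ∃ (H : Subgroup G) (K : Subgroup H) (_ : K.Normal),
      r = lcmRatio (H ⧸ K)} (lcmStar G) := by
  have hfin : {r : ℝ | ∃ (H : Subgroup G) (K : Subgroup H) (_ : K.Normal),
      r = lcmRatio (H ⧸ K)}.Finite := by
    classical
    have : Finite (Σ H : Subgroup G, {K : Subgroup H // K.Normal}) := inferInstance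
    refine (Set.finite_range (fun q : (Σ H : Subgroup G, {K : Subgroup H // K.Normal}) =>
      (haveI := q.2.2; lcmRatio (q.1 ⧸ q.2.1) : ℝ))).subset ?_
    rintro r ⟨H, K, hK, rfl⟩
    exact ⟨⟨H, K, hK⟩, rfl⟩
  have hne : {r : ℝ | ∃ (H : Subgroup G) (K : Subgroup H) (_ : K.Normal),
      r = lcmRatio (H ⧸ K)}.Nonempty := ⟨_, ⊤, ⊥, inferInstance, rfl⟩
  exact ⟨hne.csInf_mem hfin, fun r hr => csInf_le (bddBelow G) hr⟩

/-- **Main theorem.** For every prime `p` the constant `c = (p^2 - 2p + 2)/p^2` lies in `(0,1)`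
and every finite `p`-group `G` with `lcm^*(G) > c` is an LCM-group. -/
theorem result (p : ℕ) (hp : p.Prime) :
    0 < ((p : ℝ) ^ 2 - 2 * p + 2) / (p : ℝ) ^ 2 ∧
    ((p : ℝ) ^ 2 - 2 * p + 2) / (p : ℝ) ^ 2 < 1 ∧
    ∀ (G : Type u) [Group G] [Finite G], IsPGroup p G →
      IsLeast {r : ℝ | ∃ (H : Subgroup G) (K : Subgroup H) (_ : K.Normal),
        r = lcmRatio (H ⧸ K)} (lcmStar G) ∧
      (((p : ℝ) ^ 2 - 2 * p + 2) / (p : ℝ) ^ 2 < lcmStar G → IsLCMGroup G) := by
  have hp' : Fact p.Prime := ⟨hp⟩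
  have hp1 : (1 : ℝ) < p := by exact_mod_cast hp.one_lt
  refine ⟨?_, ?_, ?_⟩
  · apply div_pos
    · nlinarith [sq_nonneg ((p : ℝ) - 1)]
    · positivity
  · rw [div_lt_one (by positivity)]
    linarith
  · intro G _ _ hG
    refine ⟨lcmStar_isLeast G, ?_⟩
    intro hlt
    by_contra hno
    obtain ⟨H, hH⟩ := exists_subgroup hG hno
    exact absurd (hlt.trans_le (lcmStar_le_subgroup H)) (not_lt.mpr hH)

end Pool.Agent.Results.MP_391eb1_al.SectionRatio
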